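import Pool.Agent.Lib.MP_c07d40_pr.Limit

namespace Pool.Agent.Lib.MP_c07d40_pr.OldNonReconstructable

open Filter Topology Pool.Agent.Lib.MP_c07d40_pr

/-- For every fixed `ε > 0`: (i) if `n^ε ≤ d_n ≤ n^(1/2-ε)` then a uniformly random `d_n`-regular
graph on `n` vertices is a.a.s. not reconstructable from its 1-neighbourhoods; (ii) if
`n^ε ≤ d_n ≤ n^(1/4-ε)` then it is a.a.s. not reconstructable from its 2-neighbourhoods.
The parity and range conditions are only required for all large `n`. -/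
theorem result : ∀ ε : ℝ, 0 < ε →
    (∀ d : ℕ → ℕ,
      (∀ᶠ n : ℕ in atTop, Even (n * d n) ∧ (n : ℝ) ^ ε ≤ (d n : ℝ) ∧
        (d n : ℝ) ≤ (n : ℝ) ^ (1 / 2 - ε)) →
      Tendsto (fun n : ℕ => probNotReconstructable n (d n) 1) atTop (𝓝 1)) ∧
    (∀ d : ℕ → ℕ,
      (∀ᶠ n : ℕ in atTop, Even (n * d n) ∧ (n : ℝ) ^ ε ≤ (d n : ℝ) ∧
        (d n : ℝ) ≤ (n : ℝ) ^ (1 / 4 - ε)) →
      Tendsto (fun n : ℕ => probNotReconstructable n (d n) 2) atTop (𝓝 1)) := by
  intro ε hε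
  constructor
  · intro d hd
    obtain ⟨h1, h2⟩ := range_facts hε 2 (by norm_num) d (by simpa using hd)
    exact tendsto_of_count (s := 2) (c := 2) le_rfl
      (fun n d h1 h2 G₀ hG₀ => count_one h1 h2 G₀ hG₀) d h1 h2
  · intro d hd
    obtain ⟨h1, h2⟩ := range_facts hε 4 (by norm_num) d (by simpa using hd)
    exact tendsto_of_count (s := 4) (c := 6) (by norm_num)
      (fun n d h1 h2 G₀ hG₀ => count_two h1 h2 G₀ hG₀) d h1 h2

end Pool.Agent.Lib.MP_c07d40_pr.OldNonReconstructable
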